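import Pool.Agent.H66.McDefs

/-! A hereditary class of digraphs whose Specker function is not MC-finite. -/

namespace Pool.Agent.Results.MP_602553_lc.NotMC

open Pool.Agent.H66.Mc Pointwise Nat

abbrev T (k : ℕ) := Σ i : ZMod (k + 1), Fin (2 ^ i.val)

def pull {n k : ℕ} (e : Fin n → T k) : Set (Fin n × Fin n) := {x | (e x.2).1 = (e x.1).1 + 1}

def N (k : ℕ) : ℕ := 2 ^ (k + 1) - 1

theorem N_mono : StrictMono N := strictMono_nat_of_lt_succ fun k => by
  have : 0 < 2 ^ (k + 1) := by positivity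
  simp only [N, pow_succ 2 (k + 1)]; omega

theorem card_T (k : ℕ) : Fintype.card (T k) = N k := by
  rw [Fintype.card_sigma]
  simp only [Fintype.card_fin]
  exact (Fin.sum_univ_eq_sum_range (fun i => 2 ^ i) (k + 1)).trans (by simp [N, Nat.geomSum_eq])

theorem odd_choose (m j : ℕ) (h : j < 2 ^ m) : Odd ((2 ^ m - 1).choose j) := by
  induction j with
  | zero => simp
  | succ j ih =>
    have h1 := Nat.prime_two.dvd_choose_pow (n := m) j.succ_ne_zero h.ne
    have h2 := Nat.choose_succ_succ (2 ^ m - 1) j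
    rw [Nat.succ_eq_add_one, Nat.sub_add_cancel Nat.one_le_two_pow] at h2
    have := Nat.odd_iff.1 (ih (by omega))
    rw [Nat.odd_iff]
    simp only [Nat.succ_eq_add_one] at *
    omega

theorem fact (k : ℕ) : ∃ M, Odd M ∧ (2 ^ k - 1)! = (∏ i ∈ Finset.range k, (2 ^ i)!) * M := by
  induction k with
  | zero => exact ⟨1, odd_one, rfl⟩
  | succ k ih =>
    obtain ⟨M, h1, h2⟩ := ih
    have p : 0 < 2 ^ k := by positivity
    have l : 2 ^ k < 2 ^ (k + 1) := by rw [pow_succ]; omega
    refine ⟨_, (odd_choose _ _ l).mul h1, ?_⟩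
    rw [← Nat.choose_mul_factorial_mul_factorial (show 2 ^ k ≤ 2 ^ (k + 1) - 1 by omega),
      show 2 ^ (k + 1) - 1 - 2 ^ k = 2 ^ k - 1 by rw [pow_succ]; omega, h2, Finset.prod_range_succ]
    ring

theorem odd_orb (k : ℕ) : Odd {R | ∃ e : Fin (N k) ↪ T k, R = pull e}.ncard := by
  let e : Fin (N k) ≃ T k := (Fintype.equivFinOfCardEq (card_T k)).symm
  have h : {R | ∃ e : Fin (N k) ↪ T k, R = pull e} =
      MulAction.orbit (Equiv.Perm (Fin (N k))) (pull e) := by
    ext R
    constructor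
    · rintro ⟨g, rfl⟩
      refine ⟨(g.trans e.symm.toEmbedding).equivOfFiniteSelfEmbedding⁻¹, Set.ext fun x => ?_⟩
      have := fun y => DFunLike.congr_fun
        (g.trans e.symm.toEmbedding).toEmbedding_equivOfFiniteSelfEmbedding y
      simp only [Equiv.coe_toEmbedding] at this
      simp [Set.mem_inv_smul_set_iff, pull, this]
    · rintro ⟨σ, rfl⟩
      exact ⟨(σ.symm.trans e).toEmbedding, Set.ext fun x => Set.mem_smul_set_iff_inv_smul_mem⟩
  let H : Subgroup (Equiv.Perm (Fin (N k))) :=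
    { carrier := {g | (fun x => (e x).1) ∘ g = fun x => (e x).1}
      one_mem' := rfl
      mul_mem' := fun h1 h2 => funext fun x => (congrFun h1 _).trans (congrFun h2 x)
      inv_mem' := fun {g} h => funext fun x => (congrFun h _).symm.trans (by simp) }
  have h1 : H ≤ MulAction.stabilizer _ (pull e) := fun g hg => Set.ext fun x => by
    have := congrFun (H.inv_mem hg)
    simp only [Function.comp] at this
    simp only [Set.mem_smul_set_iff_inv_smul_mem, pull, Set.mem_setOf_eq, Prod.smul_snd,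
      Prod.smul_fst, Equiv.Perm.smul_def, this]
  obtain ⟨M, m1, m2⟩ := fact (k + 1)
  have h2 : Nat.card H = ∏ i ∈ Finset.range (k + 1), (2 ^ i)! := by
    refine (DomMulAct.stabilizer_ncard _).trans ?_
    rw [← Fin.prod_univ_eq_prod_range (fun i => (2 ^ i)!)]
    refine Finset.prod_congr rfl fun i _ => congrArg _ ?_
    exact (Nat.card_congr ((e.subtypeEquiv fun _ => Iff.rfl).trans (Equiv.sigmaSubtype i))).trans
      (Nat.card_fin _)
  have h3 := H.card_mul_index
  rw [h2, Nat.card_perm, Nat.card_fin, show (N k)! = _ from m2] at h3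
  rw [h, ← MulAction.index_stabilizer]
  exact (Nat.eq_of_mul_eq_mul_left (by positivity) h3 ▸ m1).of_dvd_nat
    (Subgroup.index_dvd_of_le h1)

theorem anti {j k : ℕ} (g : T j → T k) (h : ∀ x y, y.1 = x.1 + 1 → (g y).1 = (g x).1 + 1) :
    k ≤ j := by
  have : ∀ t : ℕ, (g ⟨t, 0⟩).1 = (g ⟨0, 0⟩).1 + t := fun t => by
    induction t with
    | zero => rw [Nat.cast_zero, Nat.cast_zero, add_zero]
    | succ t ih => rw [h ⟨t, 0⟩ _ (Nat.cast_succ t), ih, Nat.cast_succ, add_assoc]
  have := this (j + 1)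
  rw [ZMod.natCast_self, left_eq_add, ZMod.natCast_eq_zero_iff] at this
  exact Nat.le_of_succ_le_succ (Nat.le_of_dvd j.succ_pos this)

def C (S : Set ℕ) (n : ℕ) : Set (Set (Fin n × Fin n)) :=
  {R | ∃ k, ∃ e : Fin n ↪ T k, R = pull e ∧ (n < N k ∨ k ∈ S)}

theorem par {S S' : Set ℕ} {k : ℕ} (h : k ∈ S) (h' : k ∉ S') :
    ¬((C S (N k)).ncard : ℤ) ≡ (C S' (N k)).ncard [ZMOD (2 : ℕ)] := by
  have le : ∀ {n j}, (Fin n ↪ T j) → n ≤ N j := fun e => by
    simpa only [card_T, Fintype.card_fin] using Fintype.card_le_of_embedding e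
  have e1 : C S' (N k) = C ∅ (N k) := Set.ext fun R => ⟨fun ⟨j, e, h1, h2⟩ => ⟨j, e, h1, Or.inl
    (h2.elim id fun h2 => (le e).lt_of_ne fun k => h' (N_mono.injective k ▸ h2))⟩,
    fun ⟨j, e, h1, h2⟩ => ⟨j, e, h1, h2.imp_right False.elim⟩⟩
  have e2 : C S (N k) = C ∅ (N k) ∪ {R | ∃ e : Fin (N k) ↪ T k, R = pull e} := Set.ext fun R =>
    ⟨fun ⟨j, e, h1, _⟩ => (le e).lt_or_eq.imp (fun h => ⟨j, e, h1, Or.inl h⟩) fun h => by
      cases N_mono.injective h; exact ⟨e, h1⟩, fun h2 => h2.elim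
      (fun ⟨j, e, h1, h2⟩ => ⟨j, e, h1, h2.imp_right False.elim⟩) fun ⟨e, h1⟩ =>
      ⟨k, e, h1, Or.inr h⟩⟩
  rw [e1, e2, Set.ncard_union_eq (Set.disjoint_left.2 ?_), Int.ModEq]
  · have := Nat.odd_iff.1 (odd_orb k)
    omega
  · rintro _ ⟨j, e, rfl, h | h⟩ ⟨g, hg⟩
    · obtain ⟨g', h1⟩ := ((Fintype.bijective_iff_injective_and_card g).2
        ⟨g.injective, by rw [card_T, Fintype.card_fin]⟩).2.hasRightInverse
      refine (anti (e ∘ g') fun x y hxy => ?_).not_gt (N_mono.lt_iff_lt.1 h)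
      have : (g' x, g' y) ∈ pull g := by simp only [pull, Set.mem_setOf_eq, h1 x, h1 y, hxy]
      rwa [← hg] at this
    · exact h

theorem result : ∃ C, Hered C ∧ ¬MCFinite fun n => (C n).ncard := by
  by_contra H
  push Not at H
  choose r p _ hp a ha using fun S => H (C S) (by
    rintro m n e _ ⟨k, g, rfl, h⟩
    exact ⟨k, e.trans g, rfl, h.imp_left (lt_of_le_of_lt (by
      simpa using Fintype.card_le_of_embedding e))⟩) 2 one_le_two
  refine Function.cantor_injective (fun S => Encodable.encode (r S, p S, (List.range (p S)).map (a S),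
    (List.range (r S + p S)).map fun n => (C S n).ncard)) fun S S' h => ?_
  have h := Encodable.encode_injective h
  simp only [Prod.mk.injEq] at h
  obtain ⟨h1, h2, h3, h4⟩ := h
  have k := ha S'
  rw [← h1, ← h2] at h4 k
  rw [← h2] at h3
  simp only [List.map_inj_left, List.mem_range] at h3 h4
  have key : ∀ n, ((C S n).ncard : ℤ) ≡ (C S' n).ncard [ZMOD (2 : ℕ)] := fun n => by
    induction n using Nat.strong_induction_on with
    | _ n ih =>
      by_cases hn : n < r S + p S
      · rw [h4 n hn]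
      · obtain ⟨m, rfl⟩ : ∃ m, n = m + p S := ⟨n - p S, by omega⟩
        refine (ha S m (by omega)).trans (.trans (Int.ModEq.sum fun i hi => ?_) (k m (by omega)).symm)
        rw [h3 i (Finset.mem_range.1 hi)]
        exact (ih _ (by simpa using hi)).mul_left _
  exact Set.ext fun j => ⟨fun h => by_contra fun h' => par h h' (key _),
    fun h => by_contra fun h' => par h h' (key _).symm⟩

end Pool.Agent.Results.MP_602553_lc.NotMC
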